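import Pool.Agent.TH693.MP.Main
import Pool.Agent.Y633.SM.Main

/-!
# No streaming algorithm with `k` passes and `n exp ((log n) ^ (1 / (10 k)))` bits of memory finds
matchings with at least a `1 - 3 / 36 ^ k` fraction of the maximum number of edges

The model is in `Pool/Agent/TH693/MP/Model.lean`. The hard graphs are disjoint unions of the small
graphs of the library `TH693/MP`. A small graph for `r` messages with the parameter `ℓ` has at most
`2 ^ (ℓ ^ (5 r + 1))` vertices on each side, and it forces messages of `2 ^ ℓ` bits per vertex; here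
`ℓ` is a power of `log n`, whereas the starting result takes `ℓ` of the order of `log log n`.
-/

set_option autoImplicit false

namespace Pool.Agent.Results.MP_3f78b5_lc.LargerMemory

open Pool.Agent.TH693.MP MeasureTheory

/-- (a) Let `k ≥ 1` and `δ > 0`. If `n` is large enough, then for every randomized streaming
algorithm with `k` passes and `s ≤ n exp ((log n) ^ (1 / (10 k)))` bits of memory there are a graph
`G` on `n` vertices and an order `L` of its edges for which the output is, with probability less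
than `δ` only, a matching of `G` with at least `(1 - 3 / 36 ^ k) M(G)` edges, where `M(G)` is the
size of a maximum matching. (b) In particular this holds with `s ≤ C n (log n) ^ c` bits of memory,
for all constants `C` and `c`. -/
theorem result :
    (∀ (k : ℕ), 1 ≤ k → ∀ (δ : ℝ), 0 < δ →
      ∃ n₀ : ℕ, ∀ n : ℕ, n₀ ≤ n → ∀ s : ℕ,
        (s : ℝ) ≤ n * Real.exp (Real.log n ^ (1 / (10 * (k : ℝ)))) →
        ∀ (Ω : Type) [MeasurableSpace Ω] (μ : Measure Ω) [IsProbabilityMeasure μ]
          (A : Ω → Alg n s),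
          (∀ (G : SimpleGraph (Fin n)) (L : List (Sym2 (Fin n))), IsStream G L →
            MeasurableSet {ω | Good (1 - 3 / 36 ^ k) G ((A ω).output k L)}) →
          ∃ (G : SimpleGraph (Fin n)) (L : List (Sym2 (Fin n))), IsStream G L ∧
            μ.real {ω | Good (1 - 3 / 36 ^ k) G ((A ω).output k L)} < δ) ∧
    (∀ (k : ℕ), 1 ≤ k → ∀ (C : ℝ) (c : ℕ) (δ : ℝ), 0 < δ →
      ∃ n₀ : ℕ, ∀ n : ℕ, n₀ ≤ n → ∀ s : ℕ, (s : ℝ) ≤ C * n * Real.log n ^ c →
        ∀ (Ω : Type) [MeasurableSpace Ω] (μ : Measure Ω) [IsProbabilityMeasure μ]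
          (A : Ω → Alg n s),
          (∀ (G : SimpleGraph (Fin n)) (L : List (Sym2 (Fin n))), IsStream G L →
            MeasurableSet {ω | Good (1 - 3 / 36 ^ k) G ((A ω).output k L)}) →
          ∃ (G : SimpleGraph (Fin n)) (L : List (Sym2 (Fin n))), IsStream G L ∧
            μ.real {ω | Good (1 - 3 / 36 ^ k) G ((A ω).output k L)} < δ) := by
  constructor
  · intro k hk δ hδ
    obtain ⟨n₀, h⟩ := Pool.Agent.Y633.SM.lower_bound' k hk δ hδ
    refine ⟨n₀, fun n hn s hs Ω _ μ _ A hA => ?_⟩
    by_contra hcon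
    push Not at hcon
    exact h n hn s hs Ω μ A fun G L hL => ⟨hA G L hL, hcon G L hL⟩
  · intro k hk C c δ hδ
    obtain ⟨n₀, h⟩ := lower_bound k hk C c δ hδ
    refine ⟨n₀, fun n hn s hs Ω _ μ _ A hA => ?_⟩
    by_contra hcon
    push Not at hcon
    exact h n hn s hs Ω μ A fun G L hL => ⟨hA G L hL, hcon G L hL⟩

end Pool.Agent.Results.MP_3f78b5_lc.LargerMemory
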